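import Pool.Agent.Work.MP_bec1e1_FIN_h31.PUPB

/-!
# FIN: block PE (prices with the mean over uniform inserted rows)
-/

set_option autoImplicit false
set_option maxHeartbeats 400000

open Filter Topology
open scoped BigOperators

namespace Pool.Agent.LCSV

open Pool.Agent.LCSE

noncomputable section

namespace H31

variable {k : ℕ}

/-- comparison with uniform rows, lower bound -/
lemma Ex_le_Exc (hk : 2 ≤ k) {s j : ℕ} {o : Fin k} {θ ε : ℝ} (h0 : 0 ≤ θ) (hθ : θ ≤ thm k s)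
    (hd : (1 + θ) ^ j ≤ 1 + ε) (hε : 0 ≤ ε) (f : List (Fin k) → ℝ)
    (hf : ∀ r, 0 ≤ f r ∧ f r ≤ 1) :
    Ex k (j * s) f ≤ (Exc k s (gth k s o θ) j fun l => f l.flatten) + ε := by
  have h1 := Exc_gth_le hk (o := o) h0 hθ j (f := fun r => 1 - f r)
    (fun r _ => by linarith [(hf r).2])
  rw [Exc_sub, Ex_sub, Exc_const (gth_one hk s o θ), Ex_const (show 0 < k by omega)] at h1
  have h2 : Ex k (j * s) f ≤ 1 := Ex_le_const (show 0 < k by omega) fun r _ => (hf r).2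
  have h3 : 0 ≤ Ex k (j * s) f := Ex_nonneg fun r _ => (hf r).1
  have h4 : (1 + θ) ^ j * (1 - Ex k (j * s) f) ≤ (1 + ε) * (1 - Ex k (j * s) f) :=
    mul_le_mul_of_nonneg_right hd (by linarith)
  nlinarith

/-- the inserted cells as an inner mean -/
lemma AV_inner {s : ℕ} (o : Fin k) (θ : ℝ) (j N b : ℕ)
    (Φ : List (Fin k) → List (Fin k) → List (Fin k) → List (Fin k) → ℝ) :
    AV k s o θ 0 N b (fun x₁ _ x₂ y => Exc k s (gth k s o θ) j fun rs => Φ x₁ rs.flatten x₂ y) =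
      AV k s o θ j N b Φ := by
  rw [AV_zero]
  unfold AV
  congr 1
  refine Finset.sum_congr rfl fun p _ => Exc_congr fun xs₁ _ => ?_
  rw [← Exc_comm]
  refine Exc_congr fun xs₂ _ => ?_
  rw [← Ex_Exc_comm]

/-- from uniform rows to tilted cells -/
lemma AV_unif_le (hk : 2 ≤ k) {s j N b : ℕ} {o : Fin k} {θ ε : ℝ} (h0 : 0 ≤ θ) (hθ : θ ≤ thm k s)
    (hd : (1 + θ) ^ j ≤ 1 + ε) (hε : 0 ≤ ε)
    (Φ : List (Fin k) → List (Fin k) → List (Fin k) → List (Fin k) → ℝ)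
    (hΦ : ∀ x₁ r x₂ y, 0 ≤ Φ x₁ r x₂ y ∧ Φ x₁ r x₂ y ≤ 1) :
    AV k s o θ 0 N b (fun x₁ _ x₂ y => Ex k (j * s) fun r => Φ x₁ r x₂ y) ≤
      AV k s o θ j N b Φ + ε := by
  have h1 := AV_mono hk h0 hθ (o := o) (j := 0) (N := N) (b := b)
    (Φ := fun x₁ _ x₂ y => Ex k (j * s) fun r => Φ x₁ r x₂ y)
    (Ψ := fun x₁ _ x₂ y => (Exc k s (gth k s o θ) j fun rs => Φ x₁ rs.flatten x₂ y) + ε)
    (fun x₁ _ x₂ y _ _ _ => Ex_le_Exc hk h0 hθ hd hε _ fun r => hΦ x₁ r x₂ y)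
  rw [AV_add, AV_const hk, AV_inner] at h1
  exact h1

/-- the upper price holds for both cones -/
lemma pupc (hA : Stmt_PUPA) (hB : Stmt_PUPB) {C p q Pl Pu : ℝ} (hW : World k C p q Pl Pu) :
    PUPc k Pu := by
  rcases hW.phi.rho_one.lt_or_eq with h | h
  · exact hB k C p q Pl Pu hW h
  · exact hA k C p q Pl Pu hW h.symm

end H31

open H31 in
/-- PE. -/
theorem stmt_PE (hPLO : Stmt_PLO) (hA : Stmt_PUPA) (hB : Stmt_PUPB) : Stmt_PE := by
  intro k C p q Pl Pu hW ε hε j J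
  have hk := hW.hk
  have hk0 : 0 < k := by omega
  have hpr := hW.pr
  have hPu1 : Pu < 1 := by
    have := hpr.lt
    have h2 := hW.phi.gam_lt
    linarith
  have hPl1 : Pl < 1 := lt_of_le_of_lt hpr.le hPu1
  have hPl0 : 0 < Pl := hpr.pos
  have hPu0 : 0 < Pu := hPl0.trans_le hpr.le
  set ε' : ℝ := min (ε / 2) (ε ^ 2 / 8) with hε'
  have hε'0 : 0 < ε' := by positivity
  have hε'1 : ε' ≤ ε / 2 := min_le_left _ _
  have hε'2 : ε' ≤ ε ^ 2 / 8 := min_le_right _ _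
  filter_upwards [pupc hA hB hW ε' hε'0 j J, hPLO k C p q Pl Pu hW ε' hε'0 j J,
    dens_ev hk j hε'0, eventually_ge_atTop 1] with s hU hP hd hs o θ h0 hθ N hN1 hN2
  have hs' : (1 : ℝ) ≤ s := by exact_mod_cast hs
  set b := bb k s with hb
  rcases Nat.eq_zero_or_pos j with hj | hj
  · subst hj
    have h1 := AV_mono hk h0 hθ (o := o) (j := 0) (N := N) (b := b)
      (Φ := fun x₁ _ x₂ y => ind (
      ((Ex k (0 * s) fun r => (L (x₁ ++ r ++ x₂) y : ℝ)) <
        L (x₁ ++ x₂) y + (Pl - ε) * ((0 : ℕ) * s)) ∨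
      ((L (x₁ ++ x₂) y : ℝ) + (Pu + ε) * ((0 : ℕ) * s) <
        Ex k (0 * s) fun r => (L (x₁ ++ r ++ x₂) y : ℝ)))) (Ψ := fun _ _ _ _ => 0) (by
        intro x₁ r x₂ y hr _ _
        show ind _ ≤ 0
        rw [ind_of_not]
        simp)
    rw [AV_const hk] at h1
    exact h1.trans hε.le
  have hj' : (1 : ℝ) ≤ j := by exact_mod_cast hj
  have hjs : 0 < (j : ℝ) * s := by positivity
  -- pointwise inequality
  have hpt := AV_mono hk h0 hθ (o := o) (j := 0) (N := N) (b := b)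
      (Φ := fun x₁ _ x₂ y => ind (
      ((Ex k (j * s) fun r => (L (x₁ ++ r ++ x₂) y : ℝ)) < L (x₁ ++ x₂) y + (Pl - ε) * (j * s)) ∨
      ((L (x₁ ++ x₂) y : ℝ) + (Pu + ε) * (j * s) <
        Ex k (j * s) fun r => (L (x₁ ++ r ++ x₂) y : ℝ))))
      (Ψ := fun x₁ _ x₂ y => (2 / ε) *
        ((Ex k (j * s) fun r => ind ((L (x₁ ++ r ++ x₂) y : ℝ) <
          L (x₁ ++ x₂) y + (Pl - ε') * (j * s))) +
        (Ex k (j * s) fun r => ind ((L (x₁ ++ x₂) y : ℝ) + (Pu + ε') * (j * s) <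
          L (x₁ ++ r ++ x₂) y)))) (by
      intro x₁ _ x₂ y _ _ _
      set α := Ex k (j * s) fun r => ind ((L (x₁ ++ r ++ x₂) y : ℝ) <
          L (x₁ ++ x₂) y + (Pl - ε') * (j * s)) with hα
      set β := Ex k (j * s) fun r => ind ((L (x₁ ++ x₂) y : ℝ) + (Pu + ε') * (j * s) <
          L (x₁ ++ r ++ x₂) y) with hβ
      have hα0 : 0 ≤ α := Ex_nonneg fun _ _ => ind_nonneg _
      have hβ0 : 0 ≤ β := Ex_nonneg fun _ _ => ind_nonneg _
      have hlow : (L (x₁ ++ x₂) y : ℝ) + (Pl - ε') * (j * s) - (Pl - ε') * (j * s) * α ≤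
          Ex k (j * s) fun r => (L (x₁ ++ r ++ x₂) y : ℝ) := by
        have h := Ex_mono (k := k) (n := j * s)
          (f := fun r => ((L (x₁ ++ x₂) y : ℝ) + (Pl - ε') * (j * s)) - (Pl - ε') * (j * s) *
            ind ((L (x₁ ++ r ++ x₂) y : ℝ) < L (x₁ ++ x₂) y + (Pl - ε') * (j * s)))
          (g := fun r => (L (x₁ ++ r ++ x₂) y : ℝ)) (fun r _ => by
            by_cases h1 : (L (x₁ ++ r ++ x₂) y : ℝ) < L (x₁ ++ x₂) y + (Pl - ε') * (j * s)
            · rw [ind_of h1]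
              linarith [L_insert_ge x₁ r x₂ y]
            · rw [ind_of_not h1]
              push Not at h1
              linarith)
        rw [Ex_sub, Ex_const hk0, Ex_const_mul] at h
        exact h
      have hup : (Ex k (j * s) fun r => (L (x₁ ++ r ++ x₂) y : ℝ)) ≤
          (L (x₁ ++ x₂) y : ℝ) + (Pu + ε') * (j * s) + (j * s) * β := by
        have h := Ex_mono (k := k) (n := j * s) (f := fun r => (L (x₁ ++ r ++ x₂) y : ℝ))
          (g := fun r => ((L (x₁ ++ x₂) y : ℝ) + (Pu + ε') * (j * s)) + (j * s : ℝ) *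
            ind ((L (x₁ ++ x₂) y : ℝ) + (Pu + ε') * (j * s) < L (x₁ ++ r ++ x₂) y))
          (fun r hr => by
            by_cases h1 : (L (x₁ ++ x₂) y : ℝ) + (Pu + ε') * (j * s) < L (x₁ ++ r ++ x₂) y
            · rw [ind_of h1]
              have h2 := L_insert_le x₁ r x₂ y
              rw [hr] at h2
              push_cast at h2
              have h3 : 0 < (Pu + ε') * (j * s) := by positivity
              linarith
            · rw [ind_of_not h1]
              push Not at h1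
              linarith)
        rw [Ex_add, Ex_const hk0, Ex_const_mul] at h
        exact h
      have key : (((Ex k (j * s) fun r => (L (x₁ ++ r ++ x₂) y : ℝ)) <
            L (x₁ ++ x₂) y + (Pl - ε) * (j * s)) ∨
          ((L (x₁ ++ x₂) y : ℝ) + (Pu + ε) * (j * s) <
            Ex k (j * s) fun r => (L (x₁ ++ r ++ x₂) y : ℝ))) → ε / 2 ≤ α + β := by
        rintro (h1 | h1)
        · have h2 : (Pl - ε') * (j * s) - (Pl - ε') * (j * s) * α < (Pl - ε) * (j * s) := by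
            linarith
          have h3 : (j * s : ℝ) * ((Pl - ε') * (1 - α)) < (j * s) * (Pl - ε) := by linarith
          have h4 := lt_of_mul_lt_mul_left h3 hjs.le
          nlinarith
        · have h2 : (Pu + ε) * (j * s) < (Pu + ε') * (j * s) + (j * s) * β := by linarith
          have h3 : (j * s : ℝ) * (Pu + ε) < (j * s) * (Pu + ε' + β) := by linarith
          have h4 := lt_of_mul_lt_mul_left h3 hjs.le
          linarith
      by_cases hc : (((Ex k (j * s) fun r => (L (x₁ ++ r ++ x₂) y : ℝ)) <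
            L (x₁ ++ x₂) y + (Pl - ε) * (j * s)) ∨
          ((L (x₁ ++ x₂) y : ℝ) + (Pu + ε) * (j * s) <
            Ex k (j * s) fun r => (L (x₁ ++ r ++ x₂) y : ℝ)))
      · rw [ind_of hc]
        have h1 := key hc
        rw [div_mul_eq_mul_div, le_div_iff₀ hε]
        linarith
      · rw [ind_of_not hc]
        positivity)
  rw [AV_const_mul, AV_add] at hpt
  have h1 := AV_unif_le hk (o := o) (N := N) (b := b) h0 hθ (hd θ h0 hθ) hε'0.le
    (fun x₁ r x₂ y => ind ((L (x₁ ++ r ++ x₂) y : ℝ) < L (x₁ ++ x₂) y + (Pl - ε') * (j * s)))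
    (fun _ _ _ _ => ⟨ind_nonneg _, ind_le_one _⟩)
  have h2 := AV_unif_le hk (o := o) (N := N) (b := b) h0 hθ (hd θ h0 hθ) hε'0.le
    (fun x₁ r x₂ y => ind ((L (x₁ ++ x₂) y : ℝ) + (Pu + ε') * (j * s) < L (x₁ ++ r ++ x₂) y))
    (fun _ _ _ _ => ⟨ind_nonneg _, ind_le_one _⟩)
  have h3 := hP o θ h0 hθ N hN1 hN2
  have h4 := hU o θ h0 hθ N hN1 hN2
  refine hpt.trans ?_
  rw [div_mul_eq_mul_div, div_le_iff₀ hε]
  nlinarith

end

end Pool.Agent.LCSV
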