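import Pool.Agent.Work.MP_bec1e1_FIN_h39.ENVT

/-!
# FIN: block PUPB (upper price, nontrivial cone)
-/

set_option autoImplicit false
set_option maxHeartbeats 400000

open Filter Topology
open scoped BigOperators

namespace Pool.Agent.LCSV

open Pool.Agent.LCSE

noncomputable section

namespace H31

variable {k : ℕ}

/-- inserting a word gains at least `0` -/
lemma L_insert_ge (x₁ r x₂ y : List (Fin k)) : (L (x₁ ++ x₂) y : ℝ) ≤ L (x₁ ++ r ++ x₂) y := by
  have : L (x₁ ++ x₂) y ≤ L (x₁ ++ r ++ x₂) y := by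
    apply L_mono _ (List.Sublist.refl _)
    rw [List.append_assoc]
    exact List.Sublist.append (List.Sublist.refl _) (List.sublist_append_right _ _)
  exact_mod_cast this

/-- inserting a word gains at most its length -/
lemma L_insert_le (x₁ r x₂ y : List (Fin k)) :
    (L (x₁ ++ r ++ x₂) y : ℝ) ≤ L (x₁ ++ x₂) y + r.length := by
  have : L (x₁ ++ r ++ x₂) y ≤ L (x₁ ++ x₂) y + r.length := by
    obtain ⟨g, -, h1⟩ := L_append_split (x₁ ++ r) x₂ y
    obtain ⟨g', -, h2⟩ := L_append_split x₁ r (y.take g)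
    have h3 := L_append_ge x₁ x₂ ((y.take g).take g') (y.drop g)
    have h4 : L (x₁ ++ x₂) ((y.take g).take g' ++ y.drop g) ≤ L (x₁ ++ x₂) y := by
      apply L_mono (List.Sublist.refl _)
      conv_rhs => rw [← List.take_append_drop g y]
      exact List.Sublist.append (List.take_sublist _ _) (List.Sublist.refl _)
    have h5 := L_le_left r ((y.take g).drop g')
    omega
  exact_mod_cast this

/-- the mean of the value does not depend on the position -/
lemma AV_full {s : ℕ} (o : Fin k) (θ : ℝ) (j N b : ℕ) :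
    AV k s o θ j N b (fun x₁ r x₂ y => (L (x₁ ++ r ++ x₂) y : ℝ)) = EN k s o θ (N + j) b := by
  unfold AV
  have h : ∀ p ∈ Finset.range (N + 1), (Exc k s (gth k s o θ) p fun xs₁ =>
      Exc k s (gth k s o θ) j fun rs => Exc k s (gth k s o θ) (N - p) fun xs₂ =>
      Ex k b fun y => (L (xs₁.flatten ++ rs.flatten ++ xs₂.flatten) y : ℝ)) =
      EN k s o θ (N + j) b := by
    intro p hp
    have hp' : p ≤ N := Nat.lt_succ_iff.mp (Finset.mem_range.mp hp)
    unfold EN
    rw [show N + j = p + (j + (N - p)) by omega, Exc_append]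
    refine Exc_congr fun xs₁ _ => ?_
    rw [Exc_append]
    refine Exc_congr fun rs _ => Exc_congr fun xs₂ _ => Ex_congr fun y _ => ?_
    simp [List.flatten_append, List.append_assoc]
  rw [Finset.sum_congr rfl h, Finset.sum_const, Finset.card_range, nsmul_eq_mul]
  have : ((N : ℝ) + 1) ≠ 0 := by positivity
  push_cast
  field_simp

lemma AV_base (hk : 2 ≤ k) {s : ℕ} (o : Fin k) (θ : ℝ) (j N b : ℕ) :
    AV k s o θ j N b (fun x₁ _ x₂ y => (L (x₁ ++ x₂) y : ℝ)) = EN k s o θ N b := by
  unfold AV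
  have h : ∀ p ∈ Finset.range (N + 1), (Exc k s (gth k s o θ) p fun xs₁ =>
      Exc k s (gth k s o θ) j fun _ => Exc k s (gth k s o θ) (N - p) fun xs₂ =>
      Ex k b fun y => (L (xs₁.flatten ++ xs₂.flatten) y : ℝ)) =
      EN k s o θ N b := by
    intro p hp
    have hp' : p ≤ N := Nat.lt_succ_iff.mp (Finset.mem_range.mp hp)
    unfold EN
    conv_rhs => rw [show N = p + (N - p) by omega, Exc_append]
    refine Exc_congr fun xs₁ _ => ?_
    rw [Exc_const (gth_one hk s o θ)]
    refine Exc_congr fun xs₂ _ => Ex_congr fun y _ => ?_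
    simp [List.flatten_append]
  rw [Finset.sum_congr rfl h, Finset.sum_const, Finset.card_range, nsmul_eq_mul]
  have : ((N : ℝ) + 1) ≠ 0 := by positivity
  push_cast
  field_simp

end H31

open H31 in
/-- PUPB. -/
theorem stmt_PUPB (hMEAN : Stmt_MEAN) (hPLO : Stmt_PLO) : Stmt_PUPB := by
  intro k C p q Pl Pu hW hrho ε hε j J
  have hk := hW.hk
  have hpr := hW.pr
  obtain ⟨hPl, hPu⟩ := hpr.cone hrho
  have hPP : Pu = Pl := by rw [hPl, hPu]
  have hPl1 : Pl < 1 := by
    have := hpr.lt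
    have h2 := hW.phi.gam_lt
    linarith [hpr.le]
  have hPl0 : 0 < Pl := hpr.pos
  set ε' : ℝ := ε ^ 2 / 3 with hε'
  have hε'0 : 0 < ε' := by positivity
  filter_upwards [hMEAN k C p q Pl Pu hW ε' hε'0 (J + j), hPLO k C p q Pl Pu hW ε' hε'0 j J,
    eventually_ge_atTop 1] with s hM hP hs o θ h0 hθ N hN1 hN2
  have hs' : (1 : ℝ) ≤ s := by exact_mod_cast hs
  set b := bb k s with hb
  rcases Nat.eq_zero_or_pos j with hj | hj
  · subst hj
    have h1 := AV_mono hk h0 hθ (o := o) (j := 0) (N := N) (b := b)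
      (Φ := fun x₁ r x₂ y => ind ((L (x₁ ++ x₂) y : ℝ) + (Pu + ε) * ((0 : ℕ) * s) <
        L (x₁ ++ r ++ x₂) y)) (Ψ := fun _ _ _ _ => 0) (by
        intro x₁ r x₂ y hr _ _
        have hr0 : r = [] := by
          apply List.eq_nil_of_length_eq_zero
          rw [hr]; simp
        subst hr0
        show ind _ ≤ 0
        rw [ind_of_not]
        simp)
    rw [AV_const hk] at h1
    exact h1.trans hε.le
  have hj' : (1 : ℝ) ≤ j := by exact_mod_cast hj
  have hjs : 0 < (j : ℝ) * s := by positivity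
  -- the mean gain
  have hgain : ∀ i : ℕ, i ≤ j → EN k s o θ (N + i) b - EN k s o θ N b ≤ i * ((Pu + ε') * s) := by
    intro i
    induction i with
    | zero => intro _; simp
    | succ i ih =>
      intro hi
      have h1 := ih (by omega)
      have h2 := hM o θ h0 hθ (N + i) (by omega) (by omega)
      rw [show N + (i + 1) = N + i + 1 by ring]
      push_cast
      linarith
  have hg := hgain j le_rfl
  -- pointwise inequality
  have hpt := AV_mono hk h0 hθ (o := o) (j := j) (N := N) (b := b)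
      (Φ := fun x₁ r x₂ y => (ε * (j * s)) * ind ((L (x₁ ++ x₂) y : ℝ) + (Pu + ε) * (j * s) <
        L (x₁ ++ r ++ x₂) y))
      (Ψ := fun x₁ r x₂ y => ((L (x₁ ++ r ++ x₂) y : ℝ) - L (x₁ ++ x₂) y) +
        (-((Pl - ε') * (j * s)) + (j * s) * ind ((L (x₁ ++ r ++ x₂) y : ℝ) <
          L (x₁ ++ x₂) y + (Pl - ε') * (j * s)))) (by
      intro x₁ r x₂ y hr _ _
      have h1 := L_insert_ge x₁ r x₂ y
      have h2 := L_insert_le x₁ r x₂ y
      show (ε * (j * s)) * ind _ ≤ _ + (_ + (j * s) * ind _)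
      by_cases hA : (L (x₁ ++ r ++ x₂) y : ℝ) < L (x₁ ++ x₂) y + (Pl - ε') * (j * s)
      · rw [ind_of hA, ind_of_not]
        · nlinarith
        · intro h3
          have h4 : (Pu + ε) * (j * s) < (Pl - ε') * (j * s) := by linarith
          have h5 := lt_of_mul_lt_mul_right h4 hjs.le
          linarith
      · rw [ind_of_not hA]
        push Not at hA
        by_cases hB : (L (x₁ ++ x₂) y : ℝ) + (Pu + ε) * (j * s) < L (x₁ ++ r ++ x₂) y
        · rw [ind_of hB]
          nlinarith
        · rw [ind_of_not hB]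
          linarith)
  rw [AV_const_mul, AV_add, AV_add, AV_const hk, AV_const_mul, AV_sub, AV_full, AV_base hk] at hpt
  have hP' := hP o θ h0 hθ N hN1 hN2
  set α := AV k s o θ j N b (fun x₁ r x₂ y => ind ((L (x₁ ++ x₂) y : ℝ) + (Pu + ε) * (j * s) <
        L (x₁ ++ r ++ x₂) y)) with hα
  set β := AV k s o θ j N b (fun x₁ r x₂ y => ind ((L (x₁ ++ r ++ x₂) y : ℝ) <
          L (x₁ ++ x₂) y + (Pl - ε') * (j * s))) with hβ
  have hfin : ε * (j * s) * α ≤ (j * s) * (3 * ε') := by
    have h1 : (j * s : ℝ) * β ≤ (j * s) * ε' := mul_le_mul_of_nonneg_left hP' hjs.le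
    rw [hPP] at hg
    nlinarith
  have h3 : (j * s : ℝ) * (ε * α) ≤ (j * s) * (ε * ε) := by
    have : 3 * ε' = ε * ε := by rw [hε']; ring
    rw [← this]
    linarith
  have h4 := le_of_mul_le_mul_left h3 hjs
  exact le_of_mul_le_mul_left h4 hε

end

end Pool.Agent.LCSV
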